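import Pool.Agent.H59.L.S8.TH907.Bak.Schwarz

/-!
The extrapolation step.
-/

namespace Pool.Agent.TH907.Bak

open Finset Polynomial

variable {ι : Type*} [Fintype ι] {k : ℕ}

/-- The auxiliary function. -/
noncomputable def GG (P : ι → ℤ) (δ : ι → Fin k → ℤ) (x : ι → ℤ)
    (Q : MvPolynomial (Fin k) ℤ) (z : ℕ) : ℤ :=
  ∑ l, P l * MvPolynomial.eval (δ l) Q * x l ^ z

variable {p : ℕ} [hp : Fact p.Prime]

theorem pi_EE (hp2 : p ≠ 2) {K E : ℕ} (hK : 2 * E ≤ K) (hK0 : 0 < K) (n : ℕ) :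
    PadicInt.toZModPow E (EE p K n) = (PadicInt.toZModPow E (EE p K 1)) ^ n := by
  have h := EE_natCast (p := p) hp2 hK0 n
  have h2 : (p : ℤ_[p]) ^ E ∣ EE p K n - (EE p K 1) ^ n :=
    (pow_dvd_pow _ (by omega)).trans h
  rw [← toZModPow_eq_zero_iff, map_sub, sub_eq_zero, map_pow] at h2
  exact h2

theorem extra (hp2 : p ≠ 2) {K E T Z d : ℕ} (P : ι → ℤ) (δ : ι → Fin k → ℤ) (x : ι → ℤ)
    (A : ι → ℕ) (a : Fin k → ℤ) (β : ℤ) (hβ : ¬ (p : ℤ) ∣ β) (hK : 2 * E ≤ K) (hK0 : 0 < K)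
    (hx : ∀ l, (x l : ZMod (p ^ E)) = (PadicInt.toZModPow E (EE p K 1)) ^ (A l))
    (hA : ∀ l, ((p : ℤ) ^ E) ∣ β * A l - ∑ i, a i * δ l i)
    (H : ∀ Q : MvPolynomial (Fin k) ℤ, Q.totalDegree < 2 * T → ∀ z < Z, GG P δ x Q z = 0)
    (hd : 2 * d ≤ T * Z + 1) (hE : T * Z ^ 2 + d ≤ E) (Q : MvPolynomial (Fin k) ℤ)
    (hQ : Q.totalDegree < T) (n : ℕ) : (p : ℤ) ^ d ∣ GG P δ x Q n := by
  set π : ℤ_[p] →+* ZMod (p ^ E) := PadicInt.toZModPow E with hπ
  set c : ι → ℤ_[p] := fun l => ((P l * MvPolynomial.eval (δ l) Q : ℤ) : ℤ_[p]) with hc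
  set F : ℤ_[p][X] := ∑ l, C (c l) * EP p K (A l) with hFdef
  have hF : ∀ j, (p : ℤ_[p]) ^ ((j + 1) / 2) ∣ F.coeff j := by
    intro j
    rw [hFdef, Polynomial.finsetSum_coeff]
    apply Finset.dvd_sum
    intro l _
    rw [Polynomial.coeff_C_mul]
    exact Dvd.dvd.mul_left (EP_coeff_dvd hp2 _ _ _) _
  have hβu : IsUnit ((β : ℤ) : ZMod (p ^ E)) := by
    rw [ZMod.coe_int_isUnit_iff_isCoprime]
    push_cast
    apply IsCoprime.pow_left
    exact (Prime.coprime_iff_not_dvd (Nat.prime_iff_prime_int.1 hp.out)).2 hβ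
  have hAl : ∀ l, (β : ZMod (p ^ E)) * (A l : ZMod (p ^ E))
      = ((∑ i, a i * δ l i : ℤ) : ZMod (p ^ E)) := by
    intro l
    have h1 := hA l
    have h2 : (((β * A l - ∑ i, a i * δ l i : ℤ)) : ZMod (p ^ E)) = 0 := by
      rw [ZMod.intCast_zmod_eq_zero_iff_dvd]
      exact_mod_cast h1
    rw [Int.cast_sub, sub_eq_zero] at h2
    rw [← h2]
    push_cast
    rfl
  have hpc : ∀ l, π (c l) = (((P l * MvPolynomial.eval (δ l) Q : ℤ)) : ZMod (p ^ E)) := by
    intro l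
    rw [hc]
    exact map_intCast π _
  have hZ : ∀ z < Z, (X - C (z : ZMod (p ^ E))) ^ T ∣ F.map π := by
    intro z hz
    rw [X_sub_C_pow_dvd_iff, X_pow_dvd_iff]
    intro i hi
    have h1 : (F.map π).comp (X + C (z : ZMod (p ^ E))) = (F.comp (X + C (z : ℤ_[p]))).map π := by
      rw [Polynomial.map_comp]
      simp
    rw [h1, Polynomial.coeff_map, hFdef, Polynomial.sum_comp, Polynomial.finsetSum_coeff, map_sum]
    have h2 : ∀ l ∈ (univ : Finset ι), π (((C (c l) * EP p K (A l)).comp (X + C (z : ℤ_[p]))).coeff i)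
        = π (c l) * (π (ee p i) * (A l : ZMod (p ^ E)) ^ i * (x l : ZMod (p ^ E)) ^ z) := by
      intro l _
      rw [Polynomial.mul_comp, Polynomial.C_comp, Polynomial.coeff_C_mul, map_mul]
      congr 1
      have h3 := EP_taylor (p := p) hp2 K (A l : ℤ_[p]) (z : ℤ_[p]) i
      have h4 : (p : ℤ_[p]) ^ E ∣ ((EP p K (A l)).comp (X + C (z : ℤ_[p]))).coeff i
          - ee p i * (A l : ℤ_[p]) ^ i * EE p K ((A l : ℤ_[p]) * z) :=
        (pow_dvd_pow _ (by omega)).trans h3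
      rw [← toZModPow_eq_zero_iff, map_sub, sub_eq_zero] at h4
      rw [hπ, h4, map_mul, map_mul, map_pow, map_natCast]
      have h5 : ((A l : ℤ_[p]) * z) = ((A l * z : ℕ) : ℤ_[p]) := by push_cast; ring
      rw [h5, pi_EE hp2 hK hK0, pow_mul, ← hx l]
    rw [Finset.sum_congr rfl h2]
    have h6 : IsUnit ((β : ZMod (p ^ E)) ^ i) := hβu.pow i
    apply h6.mul_left_cancel
    rw [mul_zero, Finset.mul_sum]
    set L : MvPolynomial (Fin k) ℤ := ∑ j, MvPolynomial.C (a j) * MvPolynomial.X j with hL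
    have hLdeg : L.totalDegree ≤ 1 := by
      rw [hL]
      apply MvPolynomial.totalDegree_finsetSum_le
      intro j _
      refine (MvPolynomial.totalDegree_mul _ _).trans ?_
      rw [MvPolynomial.totalDegree_C, zero_add]
      exact (MvPolynomial.totalDegree_X j).le
    have hLev : ∀ l, MvPolynomial.eval (δ l) L = ∑ j, a j * δ l j := by
      intro l
      rw [hL]
      simp
    have h7 : (Q * L ^ i).totalDegree < 2 * T := by
      have h8 := MvPolynomial.totalDegree_mul Q (L ^ i)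
      have h9 := MvPolynomial.totalDegree_pow L i
      have h10 : i * L.totalDegree ≤ i * 1 := Nat.mul_le_mul_left _ hLdeg
      omega
    have h8 := H (Q * L ^ i) h7 z hz
    rw [GG] at h8
    have h9 : ∀ l ∈ (univ : Finset ι), (β : ZMod (p ^ E)) ^ i *
        (π (c l) * (π (ee p i) * (A l : ZMod (p ^ E)) ^ i * (x l : ZMod (p ^ E)) ^ z))
        = π (ee p i) * (((P l * MvPolynomial.eval (δ l) (Q * L ^ i) * x l ^ z : ℤ)) :
            ZMod (p ^ E)) := by
      intro l _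
      rw [hpc l, map_mul, map_pow, hLev l]
      push_cast
      have h10 := hAl l
      push_cast at h10
      rw [← h10, mul_pow]
      ring
    rw [Finset.sum_congr rfl h9, ← Finset.mul_sum, ← Int.cast_sum, h8]
    simp
  have hS := schwarz (p := p) hp2 hF hZ hd hE
  -- evaluate
  have h11 : (p : ℤ_[p]) ^ d ∣ F.eval (n : ℤ_[p]) := by
    rw [Polynomial.eval_eq_sum_range]
    apply Finset.dvd_sum
    intro j _
    exact Dvd.dvd.mul_right (hS j) _
  have h12 : (p : ℤ_[p]) ^ E ∣ F.eval (n : ℤ_[p]) - ((GG P δ x Q n : ℤ) : ℤ_[p]) := by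
    rw [← toZModPow_eq_zero_iff, map_sub, sub_eq_zero, map_intCast, hFdef,
      Polynomial.eval_finsetSum, map_sum, GG, Int.cast_sum]
    apply Finset.sum_congr rfl
    intro l _
    rw [Polynomial.eval_mul, Polynomial.eval_C, EP_eval, map_mul]
    have h5 : ((A l : ℤ_[p]) * n) = ((A l * n : ℕ) : ℤ_[p]) := by push_cast; ring
    rw [h5, pi_EE hp2 hK hK0, pow_mul, ← hx l]
    have h13 := hpc l
    rw [hπ] at h13
    rw [h13]
    push_cast
    ring
  have h14 : (p : ℤ_[p]) ^ d ∣ ((GG P δ x Q n : ℤ) : ℤ_[p]) := by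
    have h15 := (pow_dvd_pow (p : ℤ_[p]) (show d ≤ E by
      have : 0 ≤ T * Z ^ 2 := Nat.zero_le _
      omega)).trans h12
    have h16 := dvd_sub h11 h15
    simpa using h16
  exact (PadicInt.pow_p_dvd_int_iff d _).1 h14

end Pool.Agent.TH907.Bak
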